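import Pool.Agent.R492.TD.Waves

set_option autoImplicit false

/-!
Turing determinacy implies that every disjointly multiplicative map on the sequences in a path
connected space (more precisely: at the end points of uniformly continuous families of paths) which
does not change under null perturbations is trivial, for all target groups which inject into the
reals. Stated as an explicit reduction to the determinacy of Turing invariant sets.

The starting result `AdditiveModNull` treats additive maps on the bounded sequences in a normed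
space. Here no algebraic structure on the space and no additivity is assumed: the map only has to be
multiplicative on pairs of sequences with disjoint supports (as, for instance, the orthogonally
additive functionals and the homomorphisms from products of groups, commutative or not), and the
linear structure is replaced by paths.
-/

namespace Pool.Agent.Results.MP_917879_lc.DisjointlyMultiplicative

open Pool.Agent.H685R3 Pool.Agent.TH774.TD Filter Topology

/-- `x` and `y` have the same Turing degree (Mathlib's Turing reducibility, for characteristic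
functions). -/
def SameDegree (x y : ℕ → Bool) : Prop :=
  TuringReducible (charFn x) (charFn y) ∧ TuringReducible (charFn y) (charFn x)

/-- `u` and `v` have disjoint supports (`o` is the sequence of the base points), and `w` is the
sequence composed of them: at every place one of `u` and `v` is the base point and `w` is the other
one. -/
def Join {X : ℕ → Type*} (o u v w : ∀ n, X n) : Prop :=
  ∀ n, (u n = o n ∧ w n = v n) ∨ (v n = o n ∧ w n = u n)

/-- The paths `p n` with parameter in `[0, 1]` are uniformly continuous, uniformly in `n`. -/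
def Equicontinuous {X : ℕ → Type*} [∀ n, PseudoMetricSpace (X n)] (p : ∀ n, ℝ → X n) : Prop :=
  ∀ ε > 0, ∃ δ > 0, ∀ n, ∀ s ∈ Set.Icc (0 : ℝ) 1, ∀ t ∈ Set.Icc (0 : ℝ) 1,
    |s - t| < δ → dist (p n s) (p n t) < ε

theorem dist_tendsto {X : ℕ → Type*} [∀ n, PseudoMetricSpace (X n)] {p : ∀ n, ℝ → X n}
    (hp : Equicontinuous p) {s t : ℕ → ℝ} (hs : ∀ n, s n ∈ Set.Icc (0 : ℝ) 1)
    (ht : ∀ n, t n ∈ Set.Icc (0 : ℝ) 1) (h : Tendsto (fun n => s n - t n) atTop (𝓝 0)) :
    Tendsto (fun n => dist (p n (s n)) (p n (t n))) atTop (𝓝 0) := by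
  rw [Metric.tendsto_atTop]
  intro ε hε
  obtain ⟨δ, hδ, hd⟩ := hp ε hε
  obtain ⟨N, hN⟩ := (Metric.tendsto_atTop.1 h) δ hδ
  refine ⟨N, fun n hn => ?_⟩
  have h1 := hN n hn
  rw [Real.dist_eq, sub_zero] at h1
  rw [Real.dist_eq, sub_zero, abs_of_nonneg dist_nonneg]
  exact hd n _ (hs n) _ (ht n) h1

/-- There is a Borel map `ρ` from the Cantor space to the sequences in the unit interval, sending
Turing equivalent reals to sequences with difference tending to zero, such that the following holds.
Let `X n` be (pseudo)metric spaces with base points `o n` and let `φ` be a map from the sequences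
`u n ∈ X n` to a group `H` (with an injection `κ` of `H` into the Cantor space) such that
`φ u = φ v` if the distance of `u n` and `v n` tends to zero, and `φ w = φ u * φ v` if `w` is
composed of `u` and `v` with disjoint supports. Let `p n` be uniformly equicontinuous paths from
`o n` to `v n = p n 1` in `X n`. Then the sets `{x | κ (φ (p (ρ x))) i = true}` are Turing invariant,
and if all of them are determined, then `φ v = 1`. -/
theorem result :
    ∃ ρ : (ℕ → Bool) → ℕ → ℝ, Measurable ρ ∧ (∀ x n, ρ x n ∈ Set.Icc (0 : ℝ) 1) ∧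
      (∀ x y, SameDegree x y → Tendsto (fun n => ρ x n - ρ y n) atTop (𝓝 0)) ∧
      ∀ (X : ℕ → Type*) [∀ n, PseudoMetricSpace (X n)] (o : ∀ n, X n) (H : Type*) [Group H]
        (κ : H → ℕ → Bool), Function.Injective κ → ∀ φ : (∀ n, X n) → H,
        (∀ u v, Tendsto (fun n => dist (u n) (v n)) atTop (𝓝 0) → φ u = φ v) →
        (∀ u v w, Join o u v w → φ w = φ u * φ v) →
        ∀ p : ∀ n, ℝ → X n, Equicontinuous p → (∀ n, p n 0 = o n) →
        (∀ i, TuringInvariant {x | κ (φ fun n => p n (ρ x n)) i = true}) ∧
        ((∀ i, Determined {x | κ (φ fun n => p n (ρ x n)) i = true}) →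
          φ (fun n => p n 1) = 1) := by
  refine ⟨rho, measurable_rho, fun x n => wv_mem _, fun x y h => rho_close h.1 h.2,
    fun X _ o H _ κ hκ φ hnull hjoin p hp hp0 => ?_⟩
  have hr : ∀ x n, rho x n ∈ Set.Icc (0 : ℝ) 1 := fun x n => wv_mem _
  have hinv : ∀ x y, TuringReducible (charFn x) (charFn y) →
      TuringReducible (charFn y) (charFn x) →
      (φ fun n => p n (rho x n)) = φ fun n => p n (rho y n) := by
    intro x y h1 h2
    exact hnull _ _ (dist_tendsto hp (hr x) (hr y) (rho_close h1 h2))
  have hTI : ∀ i, TuringInvariant {x | κ (φ fun n => p n (rho x n)) i = true} := by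
    intro i x y h1 h2 hx
    change κ _ i = true at hx
    change κ _ i = true
    rw [← hinv x y h1 h2]
    exact hx
  refine ⟨hTI, fun hD => ?_⟩
  obtain ⟨z, hz⟩ := const_on_cone hTI hD
  have hconst : ∀ y, Pool.Agent.Helper227.TLe z y →
      (φ fun n => p n (rho y n)) = φ fun n => p n (rho z n) := by
    intro y hy
    refine hκ (funext fun i => ?_)
    rcases hz i with h | h
    · have h1 : κ (φ fun n => p n (rho y n)) i = true := h y hy
      have h2 : κ (φ fun n => p n (rho z n)) i = true := h z (Pool.Agent.Helper227.TLe.refl z)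
      rw [h1, h2]
    · have h1 : ¬ κ (φ fun n => p n (rho y n)) i = true := h y hy
      have h2 : ¬ κ (φ fun n => p n (rho z n)) i = true :=
        h z (Pool.Agent.Helper227.TLe.refl z)
      rw [Bool.not_eq_true] at h1 h2
      rw [h1, h2]
  obtain ⟨t₁, t₂, t₃, a, b, ⟨m1, m2, m3, m4, m5⟩, ⟨w1, w2, w3, w4, w5⟩, h23, hab⟩ :=
    Pool.Agent.R492.TD.waves z
  set c := φ fun n => p n (rho z n) with hc
  have hval : ∀ t : ℕ → ℝ, (∀ n, t n ∈ Set.Icc (0 : ℝ) 1) →
      (∃ y, Pool.Agent.Helper227.TLe z y ∧ Tendsto (fun n => rho y n - t n) atTop (𝓝 0)) →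
      (φ fun n => p n (t n)) = c := by
    rintro t ht ⟨y, hy, hy'⟩
    rw [← hconst y hy]
    exact (hnull _ _ (dist_tendsto hp (hr y) ht hy')).symm
  have v1 := hval t₁ m1 w1
  have v2 := hval t₂ m2 w2
  have v3 := hval t₃ m3 w3
  have v4 := hval a m4 w4
  have v5 := hval b m5 w5
  -- the value `c` is idempotent
  have c1 : c = 1 := by
    have h1 : φ (fun n => p n (t₁ n)) = φ (fun n => p n (t₂ n)) * φ (fun n => p n (t₃ n)) := by
      refine hjoin _ _ _ fun n => ?_
      rcases h23 n with ⟨h2, h3⟩ | ⟨h2, h3⟩
      · right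
        rw [h2, h3]
        exact ⟨hp0 n, rfl⟩
      · left
        rw [h2, h3]
        exact ⟨hp0 n, rfl⟩
    rw [v1, v2, v3] at h1
    have h2 : c * c = c * 1 := by rw [← h1, mul_one]
    exact mul_left_cancel h2
  -- patching
  classical
  set A : Set ℕ := {n | a n = t₁ n ∧ b n = 1} with hA
  let P : Set ℕ → (∀ n, X n) → ∀ n, X n := fun B u n => if n ∈ B then u n else o n
  have hP : ∀ u v w : ∀ n, X n, (∀ n ∈ A, w n = u n) → (∀ n ∉ A, w n = v n) →
      φ w = φ (P A u) * φ (P Aᶜ v) := by
    intro u v w hu hv
    refine hjoin _ _ _ fun n => ?_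
    by_cases hn : n ∈ A
    · right
      simp only [P, Set.mem_compl_iff, hn, not_true_eq_false, if_false, if_true, true_and]
      exact hu n hn
    · left
      simp only [P, Set.mem_compl_iff, hn, not_false_eq_true, if_false, if_true, true_and]
      exact hv n hn
  have hA1 : ∀ n ∈ A, a n = t₁ n ∧ b n = 1 := fun n hn => hn
  have hA2 : ∀ n ∉ A, a n = 1 ∧ b n = t₁ n := by
    intro n hn
    rcases hab n with h | h
    · exact absurd h hn
    · exact h
  have e1 := hP (fun n => p n (t₁ n)) (fun n => p n (t₁ n)) (fun n => p n (t₁ n))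
    (fun n _ => rfl) (fun n _ => rfl)
  have e2 := hP (fun n => p n (t₁ n)) (fun n => p n 1) (fun n => p n (a n))
    (fun n hn => by simp only [(hA1 n hn).1]) (fun n hn => by simp only [(hA2 n hn).1])
  have e3 := hP (fun n => p n 1) (fun n => p n (t₁ n)) (fun n => p n (b n))
    (fun n hn => by simp only [(hA1 n hn).2]) (fun n hn => by simp only [(hA2 n hn).2])
  have e4 := hP (fun n => p n 1) (fun n => p n 1) (fun n => p n 1)
    (fun n _ => rfl) (fun n _ => rfl)
  rw [v1, c1] at e1
  rw [v4, c1] at e2
  rw [v5, c1] at e3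
  have f1 : φ (P Aᶜ fun n => p n 1) = φ (P Aᶜ fun n => p n (t₁ n)) :=
    mul_left_cancel (e2.symm.trans e1)
  have f2 : φ (P A fun n => p n 1) = φ (P A fun n => p n (t₁ n)) :=
    mul_right_cancel (e3.symm.trans e1)
  rw [e4, f1, f2]
  exact e1.symm

end Pool.Agent.Results.MP_917879_lc.DisjointlyMultiplicative
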