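import Pool.Agent.W885.TD.Main
import Pool.Agent.R546.SP.Main

set_option autoImplicit false

/-!
Turing determinacy implies that a linear map from a Banach lattice to a normed space is continuous
as soon as it is bounded on all absolutely summable sequences of pairwise disjoint elements. In
particular all disjointness preserving linear operators between Banach lattices are continuous. (By
the axiom of choice there are discontinuous ones.) Stated as an explicit reduction: to a linear map
and an absolutely summable disjoint sequence of the Banach lattice we attach countably many Turing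
invariant sets of reals, and if they are all determined, then the map is continuous.
-/

namespace Pool.Agent.Results.MP_917879_lc.SeparatingOperators

open Pool.Agent.H685R3 Pool.Agent.R546.SP Filter

/-- `x` and `y` have the same Turing degree (Mathlib's Turing reducibility, for characteristic
functions). -/
def SameDegree (x y : ℕ → Bool) : Prop :=
  TuringReducible (charFn x) (charFn y) ∧ TuringReducible (charFn y) (charFn x)

/-- The set of all `x` such that for some `x'` of the same Turing degree the set `V` contains
infinitely many members of the sequence `Ψ x'`. -/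
def Saturation (V : Set (ℕ → Bool)) (Ψ : (ℕ → Bool) → ℕ → ℕ → Bool) : Set (ℕ → Bool) :=
  {x | ∃ x', SameDegree x' x ∧ ∃ᶠ n in atTop, Ψ x' n ∈ V}

section defs

variable {E : Type*} [NormedAddCommGroup E] [Lattice E] [NormedSpace ℝ E]
  {F : Type*} [NormedAddCommGroup F] [NormedSpace ℝ F]

/-- `T` is bounded on every absolutely summable sequence of pairwise disjoint elements. -/
def DisjointlyBounded (T : E →ₗ[ℝ] F) : Prop :=
  ∀ f : ℕ → E, (∀ i j, i ≠ j → |f i| ⊓ |f j| = 0) → (Summable fun i => ‖f i‖) →
    ∃ C : ℝ, ∀ i, ‖T (f i)‖ ≤ C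

/-- `T` sends disjoint elements to vectors which are orthogonal in the sense of Birkhoff and James,
up to the factor `c`. -/
def Separating (T : E →ₗ[ℝ] F) (c : ℝ) : Prop :=
  ∀ f g : E, |f| ⊓ |g| = 0 → ‖T f‖ ≤ c * ‖T f + T g‖

/-- The set of all `x` such that `T` is unbounded on the order interval `[-s, s]`, where `s` is the
sum of the `u n` with `x n = 1`. -/
def Unbounded (T : E →ₗ[ℝ] F) (u : ℕ → E) : Set (ℕ → Bool) :=
  {x | ∀ M : ℝ, ∃ f : E, |f| ≤ ∑' n, (if x n = true then u n else 0) ∧ M < ‖T f‖}

/-- The saturations under the maps `Φ σ` of all sets `Unbounded T u`, where `u` is an absolutely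
summable sequence of pairwise disjoint nonnegative elements, belong to the class `P`. -/
def AllSaturations (P : Set (ℕ → Bool) → Prop) (Φ : List Bool → (ℕ → Bool) → ℕ → ℕ → Bool)
    (T : E →ₗ[ℝ] F) : Prop :=
  ∀ u : ℕ → E, (∀ n, 0 ≤ u n) → (∀ i j, i ≠ j → u i ⊓ u j = 0) → (Summable fun n => ‖u n‖) →
    ∀ σ, P (Saturation (Unbounded T u) (Φ σ))

end defs

section lemmas

variable {E : Type*} [NormedAddCommGroup E] [Lattice E] [NormedSpace ℝ E]
  {F : Type*} [NormedAddCommGroup F] [NormedSpace ℝ F]

omit [Lattice E] [NormedSpace ℝ E] in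
theorem us_eq (u : ℕ → E) (x : ℕ → Bool) :
    USm u {n | x n = true} = ∑' n, (if x n = true then u n else 0) := by
  unfold USm
  refine tsum_congr fun n => ?_
  by_cases h : x n = true
  · rw [Set.indicator_of_mem (show n ∈ {n | x n = true} from h), if_pos h]
  · rw [Set.indicator_of_notMem (show n ∉ {n | x n = true} from h), if_neg h]

theorem mem_unbounded (T : E →ₗ[ℝ] F) (u : ℕ → E) (x : ℕ → Bool) :
    x ∈ Unbounded T u ↔ ¬ Good T (USm u {n | x n = true}) := by
  rw [us_eq]
  constructor
  · rintro h ⟨M, hM⟩
    obtain ⟨f, h1, h2⟩ := h M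
    exact absurd (hM f h1) (not_le.2 h2)
  · intro h M
    by_contra hc
    push Not at hc
    exact h ⟨M, fun f hf => hc f hf⟩

end lemmas

/-- **Main theorem.**

(1) There are Borel maps `Φ σ` (one for every finite binary sequence `σ`) from the Cantor space to
sequences of points of the Cantor space such that for every linear map `T` from a Banach lattice `E`
to a normed space `F` and every absolutely summable disjoint sequence `u` of nonnegative elements of
`E`, the saturations of the set `Unbounded T u` under the maps `Φ σ` are Turing invariant, and if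
all of them are determined, then `T` is continuous if and only if it is bounded on every absolutely
summable sequence of pairwise disjoint elements.

(2) A linear map from a Banach lattice to a normed space which sends disjoint elements to vectors
that are Birkhoff-James orthogonal up to a constant is bounded on these sequences.

(3) Every linear map from a Banach lattice to a normed lattice which preserves disjointness
satisfies the condition in (2), with the constant `1`. -/
theorem result :
    (∃ Φ : List Bool → (ℕ → Bool) → ℕ → ℕ → Bool, (∀ σ, Measurable (Φ σ)) ∧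
      ∀ (E : Type*) [NormedAddCommGroup E] [Lattice E] [HasSolidNorm E] [IsOrderedAddMonoid E]
        [NormedSpace ℝ E] [PosSMulMono ℝ E] [CompleteSpace E]
        (F : Type*) [NormedAddCommGroup F] [NormedSpace ℝ F] (T : E →ₗ[ℝ] F),
        AllSaturations TuringInvariant Φ T ∧
        (AllSaturations Determined Φ T → (Continuous T ↔ DisjointlyBounded T))) ∧
    (∀ (E : Type*) [NormedAddCommGroup E] [Lattice E] [HasSolidNorm E] [IsOrderedAddMonoid E]
      [NormedSpace ℝ E] [PosSMulMono ℝ E] [CompleteSpace E]
      (F : Type*) [NormedAddCommGroup F] [NormedSpace ℝ F] (T : E →ₗ[ℝ] F) (c : ℝ),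
      Separating T c → DisjointlyBounded T) ∧
    ∀ (E : Type*) [NormedAddCommGroup E] [Lattice E] [HasSolidNorm E] [IsOrderedAddMonoid E]
      [NormedSpace ℝ E] [PosSMulMono ℝ E] [CompleteSpace E]
      (F : Type*) [NormedAddCommGroup F] [Lattice F] [HasSolidNorm F] [IsOrderedAddMonoid F]
      [NormedSpace ℝ F] (T : E →ₗ[ℝ] F),
      (∀ f g : E, |f| ⊓ |g| = 0 → |T f| ⊓ |T g| = 0) → Separating T 1 := by
  refine ⟨⟨Pool.Agent.W885.TD.cc, Pool.Agent.W885.TD.measurable_cc,
    fun E _ _ _ _ _ _ _ F _ _ T => ?_⟩, fun E _ _ _ _ _ _ _ F _ _ T c hT => hump hT,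
    fun E _ _ _ _ _ _ _ F _ _ _ _ _ T hT f g hfg => ?_⟩
  · have key : ∀ (V : Set (ℕ → Bool)) (σ : List Bool), Saturation V (Pool.Agent.W885.TD.cc σ) =
        Pool.Agent.W885.TD.sat V (Pool.Agent.W885.TD.cc σ) := by
      intro V σ
      ext x
      exact ⟨fun ⟨x', h, h'⟩ => ⟨x', h.1, h.2, h'⟩, fun ⟨x', h1, h2, h'⟩ => ⟨x', ⟨h1, h2⟩, h'⟩⟩
    refine ⟨fun u _ _ _ σ => ?_, fun hD => ⟨fun hc f _ hs => ?_, fun hT => ?_⟩⟩
    · rw [key]
      exact Pool.Agent.W885.TD.sat_invariant _ _
    · obtain ⟨C, hC⟩ : ∃ C : ℝ, ∀ x, ‖T x‖ ≤ C * ‖x‖ := by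
        obtain ⟨C, -, hC⟩ := (⟨T, hc⟩ : E →L[ℝ] F).bound
        exact ⟨C, hC⟩
      refine ⟨|C| * ∑' i, ‖f i‖, fun i => (hC _).trans ?_⟩
      refine mul_le_mul (le_abs_self C) (hs.le_tsum i fun j _ => norm_nonneg _) (norm_nonneg _)
        (abs_nonneg C)
    · refine continuous_of_good fun w hw => all_good hT (fun u hu => tail hT hu fun N => ?_) hw
      have huN := hu.shift N
      have h1 : BaireMeasurableSet (Unbounded T fun n => u (n + N)) := by
        refine Pool.Agent.W885.TD.baire_of_determined ?_ fun σ => ?_
        · intro a b ha hab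
          rw [mem_unbounded] at ha ⊢
          intro hb
          exact ha (hb.mono (huN.us_mono fun n hn => hab n hn))
        · rw [← key]
          exact hD _ huN.nonneg huN.disj huN.sum σ
      have h2 : {x : ℕ → Bool | Good T (USm (fun n => u (n + N)) {n | x n = true})} =
          (Unbounded T fun n => u (n + N))ᶜ := by
        ext x
        rw [Set.mem_compl_iff, mem_unbounded, not_not]
        rfl
      rw [h2]
      exact h1.compl
  · rw [one_mul]
    refine norm_le_norm_of_abs_le_abs ?_
    have h1 := hT f g hfg
    -- `|T f|` is disjoint from `|T g|`, so it is below `|T f + T g|`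
    have h2 : |T f| ≤ |T f + T g| + |T g| := by
      have h3 := abs_add_le (T f + T g) (- T g)
      rw [add_neg_cancel_right, abs_neg] at h3
      exact h3
    have h4 : |T f| ⊓ (|T f + T g| + |T g|) ≤ |T f| ⊓ |T f + T g| + |T f| ⊓ |T g| :=
      inf_add_le' (abs_nonneg _) (abs_nonneg _) (abs_nonneg _)
    rw [inf_eq_left.2 h2, h1, add_zero] at h4
    exact h4.trans inf_le_right

end Pool.Agent.Results.MP_917879_lc.SeparatingOperators
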