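import Pool.Agent.R492.TD.SlowCtl

set_option autoImplicit false

/-!
Turing determinacy implies that every real valued invariant of tuples of real sequences modulo null
sequences is constant on all sufficiently slow tuples. Stated as an explicit reduction to the
determinacy of Turing invariant sets.

For one sequence this says: for every invariant `F` there is a growth rate such that `F` is constant
on all nondecreasing unbounded sequences which grow more slowly than this rate. If `G` is an
invariant of the sequences in a metric space modulo null perturbations and `p` is a uniformly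
continuous path without end (or a map of several real variables), this applies to the composition of
`G` and `p`: the value of `G` does not depend on the time scale on which one walks along the path.
-/

namespace Pool.Agent.Results.MP_917879_lc.SlowTuples

open Pool.Agent.H685R3 Pool.Agent.TH774.TD Filter Topology

/-- `x` and `y` have the same Turing degree (Mathlib's Turing reducibility, for characteristic
functions). -/
def SameDegree (x y : ℕ → Bool) : Prop :=
  TuringReducible (charFn x) (charFn y) ∧ TuringReducible (charFn y) (charFn x)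

/-- The values of `F` (at tuples, that is, lists, of real sequences) do not change if null sequences
are added to the members of the tuple. -/
def NullInvariant (F : List (ℕ → ℝ) → ℕ → Bool) : Prop :=
  ∀ l l', List.Forall₂ (fun σ τ : ℕ → ℝ => Tendsto (fun n => σ n - τ n) atTop (𝓝 0)) l l' →
    F l = F l'

/-- `σ` is nonnegative, nondecreasing and unbounded, and its square increases by at most one between
`n` and `h n`. -/
def Slow (h : ℕ → ℕ) (σ : ℕ → ℝ) : Prop :=
  (∀ n, 0 ≤ σ n) ∧ Monotone σ ∧ Tendsto σ atTop atTop ∧ ∀ n, σ (h n) ^ 2 ≤ σ n ^ 2 + 1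

/-- `P` holds for all slow tuples of length `k`: for all sufficiently slow `σ₁`, for all `σ₂` that are
sufficiently slow (depending on `σ₁`), and so on. -/
def ForSlow : ℕ → (List (ℕ → ℝ) → Prop) → Prop
  | 0, P => P []
  | k + 1, P => ∃ h : ℕ → ℕ, ∀ σ, Slow h σ → ForSlow k fun l => P (σ :: l)

/-- `P (Γ x₁, ..., Γ x_k)` holds for all `x₁` in a cone, for all `x₂` in a cone (depending on `x₁`),
and so on. -/
def ForCones (Γ : (ℕ → Bool) → ℕ → ℝ) : ℕ → (List (ℕ → ℝ) → Prop) → Prop
  | 0, P => P []
  | k + 1, P => ∃ z : ℕ → Bool, ∀ x, TuringReducible (charFn z) (charFn x) →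
      ForCones Γ k fun l => P (Γ x :: l)

/-- The set of all `x` such that the bit `i` of `F (Γ y₁, ..., Γ y_j, Γ x, Γ x₁, ..., Γ x_m)` is one
for all `x₁` in a cone, for all `x₂` in a cone, and so on. -/
def Section (Γ : (ℕ → Bool) → ℕ → ℝ) (F : List (ℕ → ℝ) → ℕ → Bool) (ys : List (ℕ → Bool)) (m i : ℕ) :
    Set (ℕ → Bool) :=
  {x | ForCones Γ m fun l => F (ys.map Γ ++ Γ x :: l) i = true}

theorem forall₂_refl (l : List (ℕ → ℝ)) :
    List.Forall₂ (fun σ τ : ℕ → ℝ => Tendsto (fun n => σ n - τ n) atTop (𝓝 0)) l l :=
  List.forall₂_same.2 fun σ _ => by simp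

theorem append_congr {F : List (ℕ → ℝ) → ℕ → Bool} (hF : NullInvariant F) (k : List (ℕ → ℝ))
    {σ τ : ℕ → ℝ} (h : Tendsto (fun n => σ n - τ n) atTop (𝓝 0)) (l : List (ℕ → ℝ)) :
    F (k ++ σ :: l) = F (k ++ τ :: l) := by
  refine hF _ _ ?_
  exact List.rel_append (forall₂_refl k) (List.Forall₂.cons h (forall₂_refl l))

theorem section_invariant {F : List (ℕ → ℝ) → ℕ → Bool} (hF : NullInvariant F)
    (ys : List (ℕ → Bool)) (m i : ℕ) : TuringInvariant (Section sq F ys m i) := by
  intro x y h1 h2 hx
  have h3 : (fun l => F (ys.map sq ++ sq x :: l) i = true) =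
      fun l => F (ys.map sq ++ sq y :: l) i = true := by
    funext l
    rw [append_congr hF _ (sq_close h1 h2)]
  change ForCones sq m (fun l => F (ys.map sq ++ sq x :: l) i = true) at hx
  rw [h3] at hx
  exact hx

theorem main (k : ℕ) : ∀ F : List (ℕ → ℝ) → ℕ → Bool, NullInvariant F →
    (∀ ys m i, ys.length + 1 + m = k → Determined (Section sq F ys m i)) →
    ∃ c : ℕ → Bool, ForSlow k (fun l => F l = c) ∧
      ∀ i, c i = true ↔ ForCones sq k fun l => F l i = true := by
  induction k with
  | zero => exact fun F _ _ => ⟨F [], rfl, fun i => Iff.rfl⟩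
  | succ k ih =>
    intro F hF hD
    -- the sections
    have hsec : ∀ y : ℕ → Bool, ∃ c : ℕ → Bool, ForSlow k (fun l => F (sq y :: l) = c) ∧
        ∀ i, c i = true ↔ ForCones sq k fun l => F (sq y :: l) i = true := by
      intro y
      refine ih (fun l => F (sq y :: l)) ?_ fun ys m i h => ?_
      · intro l l' h
        exact hF _ _ (List.Forall₂.cons (by simp) h)
      · exact hD (y :: ys) m i (by simp only [List.length_cons]; omega)
    obtain ⟨z, hz⟩ := const_on_cone (S := fun i => Section sq F [] k i)
      (fun i => section_invariant hF [] k i) fun i => hD [] k i (by simp only [List.length_nil]; omega)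
    have hmem : ∀ x i, x ∈ Section sq F [] k i ↔ ForCones sq k fun l => F (sq x :: l) i = true :=
      fun x i => Iff.rfl
    classical
    refine ⟨fun i => decide (z ∈ Section sq F [] k i), ?_, fun i => ?_⟩
    · obtain ⟨h, hh⟩ := Pool.Agent.R492.TD.slow_control z
      refine ⟨h, fun σ hσ => ?_⟩
      obtain ⟨y, hy, hy'⟩ := hh σ hσ
      obtain ⟨c, hc, hc'⟩ := hsec y
      have h1 : c = fun i => decide (z ∈ Section sq F [] k i) := by
        funext i
        rw [Bool.eq_iff_iff, hc' i, decide_eq_true_eq]
        change y ∈ Section sq F [] k i ↔ _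
        rcases hz i with h2 | h2
        · exact iff_of_true (h2 y hy) (h2 z (Pool.Agent.Helper227.TLe.refl z))
        · exact iff_of_false (h2 y hy) (h2 z (Pool.Agent.Helper227.TLe.refl z))
      have h3 : (fun l => F (σ :: l) = fun i => decide (z ∈ Section sq F [] k i)) =
          fun l => F (sq y :: l) = c := by
        funext l
        rw [h1]
        have h4 := append_congr hF [] hy' l
        simp only [List.nil_append] at h4
        rw [h4]
      rw [h3]
      exact hc
    · rw [decide_eq_true_eq]
      constructor
      · intro h1
        rcases hz i with h2 | h2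
        · exact ⟨z, fun x hx => h2 x hx⟩
        · exact absurd h1 (h2 z (Pool.Agent.Helper227.TLe.refl z))
      · rintro ⟨z', hz'⟩
        obtain ⟨w, hw, hw'⟩ := Pool.Agent.R492.TD.join_two z z'
        have h1 : w ∈ Section sq F [] k i := hz' w hw'
        rcases hz i with h2 | h2
        · exact h2 z (Pool.Agent.Helper227.TLe.refl z)
        · exact absurd h1 (h2 w hw)

/-- There is a Borel map `Γ` from the Cantor space to the sequences of nonnegative real numbers,
sending Turing equivalent reals to sequences with difference tending to zero, such that for every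
map `F` from the tuples of real sequences to the Cantor space which does not change under null
perturbations and for every `k` the sets `Section Γ F ys m i` are Turing invariant, and if they are
determined for `ys.length + 1 + m = k`, then for some `c` one has `F (σ₁, ..., σ_k) = c` for all
sufficiently slow `σ₁`, for all sufficiently slow `σ₂` (depending on `σ₁`), and so on. -/
theorem result :
    ∃ Γ : (ℕ → Bool) → ℕ → ℝ, Measurable Γ ∧ (∀ x n, 0 ≤ Γ x n) ∧
      (∀ x y, SameDegree x y → Tendsto (fun n => Γ x n - Γ y n) atTop (𝓝 0)) ∧
      ∀ F : List (ℕ → ℝ) → ℕ → Bool, NullInvariant F →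
        (∀ ys m i, TuringInvariant (Section Γ F ys m i)) ∧
        ∀ k, (∀ ys m i, ys.length + 1 + m = k → Determined (Section Γ F ys m i)) →
          ∃ c : ℕ → Bool, ForSlow k fun l => F l = c := by
  refine ⟨sq, measurable_pi_lambda _ measurable_sq, fun x n => Real.sqrt_nonneg _,
    fun x y h => sq_close h.1 h.2, fun F hF => ⟨fun ys m i => section_invariant hF ys m i,
      fun k hD => ?_⟩⟩
  obtain ⟨c, hc, -⟩ := main k F hF hD
  exact ⟨c, hc⟩

end Pool.Agent.Results.MP_917879_lc.SlowTuples
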