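import Pool.Agent.R620.TD.Meas
import Pool.Agent.R620.TD.Perm

set_option autoImplicit false

/-!
# How much invariance of the payoff sets is harmless: determinacy of tail sets is as strong as `AD`

Turing determinacy is the determinacy of the payoff sets which are invariant under Turing
equivalence. Here smaller (and also much larger, but more regular) kinds of invariance are treated,
for which the determinacy of the invariant sets implies the full axiom of determinacy: to every
payoff set `A` we attach, in an explicit way, an invariant payoff set `B` such that each of the two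
players wins the game `B` if and only if she wins the game `A`. In parts 1, 2, 3 the reduction is
`B = (D ∩ Φ⁻¹ A) ∪ N` with a fixed Borel map `Φ` and fixed Borel sets `D`, `N`, so it works level
by level (for example, the determinacy of the projective tail sets implies the determinacy of all
projective sets).

1. `B` is closed under deleting or adding finite initial parts (of any lengths) of the sequence of
   the moves of each player. In particular `B` is a tail set, i.e. closed under changes at finitely
   many places (`E₀`-invariant); `E₀` is contained in Turing equivalence.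
2. `B` is closed under all changes on sets of places of asymptotic density zero.
3. The places are partitioned into the columns `{n | c n = i}`. If infinitely many infinite columns
   consist of places of player I, and infinitely many of places of player II, then `B` can be taken
   closed under ALL permutations of the places which preserve the columns, and under all changes
   which are finite in each column.
4. The hypothesis on the columns in 3 cannot be dropped: if every column contains infinitely many
   places of each player, then all payoff sets closed under these permutations are determined,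
   provably.
5. A general form of 2 and 3: let `f` be a filter of sets of places which contains the cofinite
   sets, and let `C 0, C 1, ...` be disjoint sets of places of player I (for even indices) and
   player II (for odd indices), such that the limit of a sequence along `C i` with respect to `f`
   can be guessed from its initial segments, with finitely many wrong guesses. Then `B` can be
   taken invariant under changes on sets of the dual ideal. The payoff set `B` is
   `LimitPayoff f C A`.

(The theorem `ThompsonCircle` of this folder says that for Thompson's circle group, acting on the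
places, the determinacy of the invariant sets is equivalent to Turing determinacy.)

Proof. The players write their moves in the game `A` into columns of moves in the game `B`, where
they may change their mind; the moves are the limits. The first move (in the order of the game
`A`) without a limit is to blame. A strategy for `A` is applied to the current guesses. Conversely,
let a strategy for `B` be given. If the opponent keeps her first `j` moves fixed from some time
on, then the next move according to the strategy has a limit in all plays, so there is a position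
after which this limit does not change any more, for all continuations in which the opponent keeps
the `j` moves fixed (otherwise there would be a play without a limit). These positions give a
strategy for `A`.
-/

namespace Pool.Agent.Results.MP_917879_lc.TailSets

open Filter Topology Pool.Agent.H685R3

/-- `a` and `b` are equal after deleting finite initial parts, of any lengths. -/
def TailEq (a b : ℕ → Bool) : Prop := ∃ u v, ∀ k, a (u + k) = b (v + k)

/-- `S` has asymptotic density zero. -/
def DensityZero (S : Set ℕ) : Prop :=
  Tendsto (fun N : ℕ => ((S ∩ Set.Iio N).ncard : ℝ) / N) atTop (𝓝 0)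

/-- `A` is closed under all permutations of the places which preserve the function `c`. -/
def PermClosed (c : ℕ → ℕ) (A : Set (ℕ → Bool)) : Prop :=
  ∀ π : Equiv.Perm ℕ, (∀ n, c (π n) = c n) → ∀ x ∈ A, x ∘ π ∈ A

/-- Every game can be transferred, by one fixed Borel reduction, to a game with the same winner and
with a payoff set which has the property `P`. -/
def Transfers (P : Set (ℕ → Bool) → Prop) : Prop :=
  ∃ (Φ : (ℕ → Bool) → ℕ → Bool) (D N : Set (ℕ → Bool)), Measurable Φ ∧ MeasurableSet D ∧
    MeasurableSet N ∧ ∀ A : Set (ℕ → Bool), P ((D ∩ Φ ⁻¹' A) ∪ N) ∧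
      (WinsI ((D ∩ Φ ⁻¹' A) ∪ N) ↔ WinsI A) ∧ (WinsII ((D ∩ Φ ⁻¹' A) ∪ N) ↔ WinsII A)

/-- `x` has the limit `b` along `C`, with respect to the filter `f`. -/
def Lim (f : Filter ℕ) (C : Set ℕ) (b : Bool) (x : ℕ → Bool) : Prop :=
  ∀ᶠ n in f, n ∈ C → x n = b

/-- The payoff set given by the limits along the sets `C i`: the sequence of the limits exists and
is in `A`, or the first `i` for which there is no limit is odd. -/
def LimitPayoff (f : Filter ℕ) (C : ℕ → Set ℕ) (A : Set (ℕ → Bool)) : Set (ℕ → Bool) :=
  {x | (∃ y ∈ A, ∀ i, Lim f (C i) (y i) x) ∨
    ∃ i, i % 2 = 1 ∧ (¬ ∃ b, Lim f (C i) b x) ∧ ∀ j, j < i → ∃ b, Lim f (C j) b x}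

theorem result :
    -- 1. deleting or adding finite initial parts of the moves of each player
    (Transfers fun B => ∀ x y : ℕ → Bool, TailEq (fun k => x (2 * k)) (fun k => y (2 * k)) →
      TailEq (fun k => x (2 * k + 1)) (fun k => y (2 * k + 1)) → x ∈ B → y ∈ B) ∧
    -- 2. changes on sets of density zero
    (Transfers fun B => ∀ x y : ℕ → Bool, DensityZero {n | x n ≠ y n} → x ∈ B → y ∈ B) ∧
    -- 3. permutations preserving the columns, changes which are finite in each column
    (∀ c : ℕ → ℕ, {i | (c ⁻¹' {i}).Infinite ∧ ∀ n, c n = i → n % 2 = 0}.Infinite →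
      {i | (c ⁻¹' {i}).Infinite ∧ ∀ n, c n = i → n % 2 = 1}.Infinite →
      Transfers fun B => PermClosed c B ∧
        ∀ x y : ℕ → Bool, (∀ i, {n | c n = i ∧ x n ≠ y n}.Finite) → x ∈ B → y ∈ B) ∧
    -- 4. two-sided columns
    (∀ c : ℕ → ℕ, (∀ n q, q < 2 → {m | c m = c n ∧ m % 2 = q}.Infinite) →
      ∀ A, PermClosed c A → WinsI A ∨ WinsII A) ∧
    -- 5. the general form
    (∀ (f : Filter ℕ) (C : ℕ → Set ℕ), f ≤ cofinite → (∀ i, ∀ n ∈ C i, n % 2 = i % 2) →
      (∀ i j, i ≠ j → Disjoint (C i) (C j)) →
      (∀ i, ∃ e : List Bool → Bool, ∀ x b, Lim f (C i) b x → ∀ᶠ n in atTop, e (hist x n) = b) →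
      ∀ A : Set (ℕ → Bool),
        (∀ x y : ℕ → Bool, (∀ᶠ n in f, x n = y n) → x ∈ LimitPayoff f C A →
          y ∈ LimitPayoff f C A) ∧
        (WinsI (LimitPayoff f C A) ↔ WinsI A) ∧ (WinsII (LimitPayoff f C A) ↔ WinsII A)) := by
  refine ⟨?_, ?_, fun c h0 h1 => ?_, fun c h A hA => ?_, fun f C hf hpar hdis he A => ⟨?_, ?_⟩⟩
  · obtain ⟨Φ, D, N, h1, h2, h3, h4⟩ := Pool.Agent.R620.TD.star_borel Pool.Agent.R620.TD.rs
      Pool.Agent.R620.TD.rs Pool.Agent.R620.TD.meas_RConv Pool.Agent.R620.TD.meas_RConv
    refine ⟨Φ, D, N, h1, h2, h3, fun A => ?_⟩
    rw [← h4 A]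
    exact ⟨fun x y h5 h6 hx => Pool.Agent.R620.TD.star_tail h5 h6 hx,
      Pool.Agent.R620.TD.winsI_star _ _ A, Pool.Agent.R620.TD.winsII_star _ _ A⟩
  · obtain ⟨Φ, D, N, h1, h2, h3, h4⟩ := Pool.Agent.R620.TD.limitPayoff_borel
      Pool.Agent.R620.TD.dens_le (C := Pool.Agent.R620.TD.DC) (fun _ _ h => h.1)
      Pool.Agent.R620.TD.DC_disj Pool.Agent.R620.TD.exists_est_dens
      (fun i b => Pool.Agent.R620.TD.meas_lim_dens _ b)
    refine ⟨Φ, D, N, h1, h2, h3, fun A => ?_⟩
    rw [← h4 A]
    refine ⟨fun x y h5 hx => ?_, Pool.Agent.R620.TD.dens_wins A⟩
    refine Pool.Agent.R620.TD.limitPayoff_congr ?_ hx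
    exact h5
  · obtain ⟨ix, h2, h3, h4⟩ := Pool.Agent.R620.TD.exists_columns c h0 h1
    have he := fun i => Pool.Agent.R620.TD.exists_est_cofinite (h2 i)
    obtain ⟨Φ, D, N, g1, g2, g3, g4⟩ := Pool.Agent.R620.TD.limitPayoff_borel
      (C := fun i => c ⁻¹' {ix i}) le_rfl h3 h4 he
      (fun i b => Pool.Agent.R620.TD.meas_lim_cofinite _ b)
    refine ⟨Φ, D, N, g1, g2, g3, fun A => ?_⟩
    rw [← g4 A]
    exact ⟨⟨Pool.Agent.R620.TD.perm_closed c ix A,
      fun x y h hx => Pool.Agent.R620.TD.fin_closed c ix A x y h hx⟩,
      Pool.Agent.R620.TD.limitPayoff_wins le_rfl h3 h4 he A⟩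
  · exact Pool.Agent.R620.TD.perm_determined c h A hA
  · exact fun x y h hx => Pool.Agent.R620.TD.limitPayoff_congr h hx
  · exact Pool.Agent.R620.TD.limitPayoff_wins hf hpar hdis he A

end Pool.Agent.Results.MP_917879_lc.TailSets
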